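import Pool.Agent.Helper26.KN.Goals

/-! Packet FRZ. -/

namespace KN.PkFRZ

open Finset Pool.Agent.Helper97.RCK

/-- the weights at the root -/
noncomputable def xw {V : Type} (G : SimpleGraph V) [DecidableRel G.Adj] (r : V) (w : ℝ) : V → ℝ :=
  fun u => if G.Adj r u then w else 0

theorem card_root {V : Type} [Fintype V] [DecidableEq V] (r : V) (S : Finset (Sym2 V))
    (hS : S ⊆ (⊤ : SimpleGraph V).edgeFinset) :
    (S.filter (fun e => r ∈ e)).card = (openNbrs r S).card := by
  have h : S.filter (fun e => r ∈ e) = (openNbrs r S).image (fun u => s(r, u)) := by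
    ext e
    constructor
    · intro he
      rw [mem_filter] at he
      obtain ⟨heS, u, rfl⟩ := he
      have h1 := hS heS
      rw [SimpleGraph.mem_edgeFinset, SimpleGraph.mem_edgeSet, SimpleGraph.top_adj] at h1
      rw [mem_image]
      exact ⟨u, by simp only [openNbrs, mem_filter, mem_univ, true_and]; exact ⟨h1.symm, heS⟩, rfl⟩
    · intro he
      rw [mem_image] at he
      obtain ⟨u, hu, rfl⟩ := he
      simp only [openNbrs, mem_filter, mem_univ, true_and] at hu
      rw [mem_filter]
      exact ⟨hu.2, Sym2.mem_mk_left r u⟩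
  rw [h, card_image_of_injective]
  intro a b hab
  exact (Sym2.congr_right).1 hab

theorem weight_mem {V : Type} [Fintype V] [DecidableEq V] (G : SimpleGraph V) [DecidableRel G.Adj]
    (r : V) (p q : ℝ) (hp1 : p < 1) (S : Finset (Sym2 V)) (hS : S ⊆ G.edgeFinset) :
    p ^ S.card * (1 - p) ^ (G.edgeFinset.card - S.card) *
        q ^ Nat.card (SimpleGraph.fromEdgeSet (↑S : Set (Sym2 V))).ConnectedComponent =
      (1 - p) ^ G.edgeFinset.card * rcWeight r (xw G r (p / (1 - p))) (p / (1 - p)) q S := by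
  have hS' : S ⊆ (⊤ : SimpleGraph V).edgeFinset := by
    intro e he
    have := hS he
    rw [SimpleGraph.mem_edgeFinset] at this ⊢
    exact SimpleGraph.edgeSet_mono (le_top : G ≤ ⊤) this
  have h0 : (1 - p) ≠ 0 := (sub_pos.2 hp1).ne'
  have hprod : ∏ v ∈ openNbrs r S, xw G r (p / (1 - p)) v = (p / (1 - p)) ^ (openNbrs r S).card := by
    rw [prod_congr rfl (g := fun _ => p / (1 - p)), prod_const]
    intro u hu
    simp only [openNbrs, mem_filter, mem_univ, true_and] at hu
    have h1 := hS hu.2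
    rw [SimpleGraph.mem_edgeFinset, SimpleGraph.mem_edgeSet] at h1
    simp only [xw, if_pos h1]
  have hcard : (openNbrs r S).card + (S.filter (fun e => r ∉ e)).card = S.card := by
    rw [← card_root r S hS']
    exact card_filter_add_card_filter_not (s := S) (fun e => r ∈ e)
  have hle : S.card ≤ G.edgeFinset.card := card_le_card hS
  obtain ⟨m, hm⟩ := Nat.exists_eq_add_of_le hle
  rw [rcWeight, hprod, ← pow_add, hcard, hm, Nat.add_sub_cancel_left, pow_add, div_pow]
  field_simp

theorem weight_notMem {V : Type} [Fintype V] [DecidableEq V] (G : SimpleGraph V) [DecidableRel G.Adj]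
    (r : V) (w q : ℝ) (hG : ∀ u v : V, u ≠ v → u ≠ r → v ≠ r → G.Adj u v) (S : Finset (Sym2 V))
    (hS : S ⊆ (⊤ : SimpleGraph V).edgeFinset) (hn : ¬ S ⊆ G.edgeFinset) :
    rcWeight r (xw G r w) w q S = 0 := by
  rw [Finset.not_subset] at hn
  obtain ⟨e, heS, heG⟩ := hn
  have key : ∃ u, u ≠ r ∧ s(r, u) ∈ S ∧ ¬ G.Adj r u := by
    have h1 := hS heS
    induction e using Sym2.inductionOn with
    | _ a b =>
      rw [SimpleGraph.mem_edgeFinset, SimpleGraph.mem_edgeSet, SimpleGraph.top_adj] at h1
      rw [SimpleGraph.mem_edgeFinset, SimpleGraph.mem_edgeSet] at heG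
      by_cases ha : a = r
      · subst ha
        exact ⟨b, h1.symm, heS, heG⟩
      · by_cases hb : b = r
        · subst hb
          exact ⟨a, ha, by rw [Sym2.eq_swap]; exact heS, fun h => heG h.symm⟩
        · exact absurd (hG a b h1 ha hb) heG
  obtain ⟨u, hur, huS, hadj⟩ := key
  have : ∏ v ∈ openNbrs r S, xw G r w v = 0 := by
    apply prod_eq_zero (i := u)
    · simp only [openNbrs, mem_filter, mem_univ, true_and]
      exact ⟨hur, huS⟩
    · simp only [xw, if_neg hadj]
  rw [rcWeight, this, zero_mul, zero_mul]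

theorem sum_eq {V : Type} [Fintype V] [DecidableEq V] (G : SimpleGraph V) [DecidableRel G.Adj]
    (r : V) (p q : ℝ) (hp1 : p < 1) (hG : ∀ u v : V, u ≠ v → u ≠ r → v ≠ r → G.Adj u v)
    (P : Finset (Sym2 V) → Prop) [DecidablePred P] :
    (∑ S ∈ G.edgeFinset.powerset with P S,
      p ^ S.card * (1 - p) ^ (G.edgeFinset.card - S.card) *
        q ^ Nat.card (SimpleGraph.fromEdgeSet (↑S : Set (Sym2 V))).ConnectedComponent) =
      (1 - p) ^ G.edgeFinset.card * ∑ S ∈ (⊤ : SimpleGraph V).edgeFinset.powerset with P S,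
        rcWeight r (xw G r (p / (1 - p))) (p / (1 - p)) q S := by
  rw [mul_sum]
  have hsub : G.edgeFinset.powerset.filter P ⊆ (⊤ : SimpleGraph V).edgeFinset.powerset.filter P := by
    apply filter_subset_filter
    apply powerset_mono.2
    intro e he
    rw [SimpleGraph.mem_edgeFinset] at he ⊢
    exact SimpleGraph.edgeSet_mono (le_top : G ≤ ⊤) he
  rw [← sum_subset hsub]
  · apply sum_congr rfl
    intro S hS
    rw [mem_filter, mem_powerset] at hS
    exact weight_mem G r p q hp1 S hS.1
  · intro S hS hS'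
    rw [mem_filter, mem_powerset] at hS hS'
    rw [weight_notMem G r _ q hG S hS.1 (fun h => hS' ⟨h, hS.2⟩), mul_zero]

theorem sum_eq_all {V : Type} [Fintype V] [DecidableEq V] (G : SimpleGraph V) [DecidableRel G.Adj]
    (r : V) (p q : ℝ) (hp1 : p < 1) (hG : ∀ u v : V, u ≠ v → u ≠ r → v ≠ r → G.Adj u v) :
    (∑ S ∈ G.edgeFinset.powerset,
      p ^ S.card * (1 - p) ^ (G.edgeFinset.card - S.card) *
        q ^ Nat.card (SimpleGraph.fromEdgeSet (↑S : Set (Sym2 V))).ConnectedComponent) =
      (1 - p) ^ G.edgeFinset.card * ∑ S ∈ (⊤ : SimpleGraph V).edgeFinset.powerset,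
        rcWeight r (xw G r (p / (1 - p))) (p / (1 - p)) q S := by
  have h := sum_eq G r p q hp1 hG (fun _ => True)
  rw [filter_true_of_mem (fun _ _ => trivial), filter_true_of_mem (fun _ _ => trivial)] at h
  exact h

theorem mono_ind {V : Type} [DecidableEq V] (v : V) :
    Monotone (fun K : Finset V => if v ∈ K then (1 : ℝ) else 0) := by
  intro K K' h
  dsimp only
  by_cases h1 : v ∈ K
  · rw [if_pos h1, if_pos (h h1)]
  · rw [if_neg h1]
    split_ifs <;> norm_num

theorem mem_open {V : Type} [Fintype V] [DecidableEq V] (r v : V) (hv : v ≠ r)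
    (S : Finset (Sym2 V)) : (v ∈ openNbrs r S ∩ {v}) ↔ s(r, v) ∈ S := by
  simp only [openNbrs, mem_inter, mem_filter, mem_univ, true_and, mem_singleton, and_true]
  exact ⟨fun h => h.2, fun h => ⟨hv, h⟩⟩

theorem frz : G_NCS → G_FRZ := by
  intro hN V _ _ G _ r p q hG hp hp1 hq hq1 e he f hf hef hre hcase
  obtain ⟨v, rfl⟩ := hre
  have hw : 0 < p / (1 - p) := div_pos hp (sub_pos.2 hp1)
  have hx : ∀ u, 0 ≤ xw G r (p / (1 - p)) u := by
    intro u
    simp only [xw]
    split_ifs
    · exact hw.le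
    · exact le_refl 0
  have hv : v ≠ r := by
    intro h
    subst h
    rw [SimpleGraph.mem_edgeFinset, SimpleGraph.mem_edgeSet] at he
    exact G.loopless.irrefl _ he
  rw [sum_eq G r p q hp1 hG (fun S => s(r, v) ∈ S ∧ f ∈ S), sum_eq_all G r p q hp1 hG,
    sum_eq G r p q hp1 hG (fun S => s(r, v) ∈ S), sum_eq G r p q hp1 hG (fun S => f ∈ S)]
  have main : (∑ S ∈ (⊤ : SimpleGraph V).edgeFinset.powerset with (s(r, v) ∈ S ∧ f ∈ S),
      rcWeight r (xw G r (p / (1 - p))) (p / (1 - p)) q S) *
        (∑ S ∈ (⊤ : SimpleGraph V).edgeFinset.powerset,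
          rcWeight r (xw G r (p / (1 - p))) (p / (1 - p)) q S) ≤
      (∑ S ∈ (⊤ : SimpleGraph V).edgeFinset.powerset with s(r, v) ∈ S,
        rcWeight r (xw G r (p / (1 - p))) (p / (1 - p)) q S) *
      (∑ S ∈ (⊤ : SimpleGraph V).edgeFinset.powerset with f ∈ S,
        rcWeight r (xw G r (p / (1 - p))) (p / (1 - p)) q S) := by
    by_cases hrf : r ∈ f
    · obtain ⟨b, rfl⟩ := hrf
      have hb : b ≠ r := by
        intro h
        subst h
        rw [SimpleGraph.mem_edgeFinset, SimpleGraph.mem_edgeSet] at hf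
        exact G.loopless.irrefl _ hf
      have hvb : v ≠ b := by
        intro h
        exact hef (by rw [h])
      have h := star_NA r (xw G r (p / (1 - p))) (p / (1 - p)) q hx hw.le hq hq1.le {v} {b}
        (by simpa using hv.symm) (by simpa using hb.symm) (by simpa using hvb)
        (fun K => if v ∈ K then (1 : ℝ) else 0) (fun K => if b ∈ K then (1 : ℝ) else 0)
        (mono_ind v) (mono_ind b)
      simp only [rcSum, mem_open r v hv, mem_open r b hb, mul_one] at h
      simp only [sum_filter]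
      refine le_of_eq_of_le ?_ (h.trans_eq ?_)
      · congr 1
        apply sum_congr rfl
        intro S _
        by_cases h1 : s(r, v) ∈ S <;> by_cases h2 : s(r, b) ∈ S <;> simp [h1, h2]
      · congr 1
        · apply sum_congr rfl
          intro S _
          by_cases h1 : s(r, v) ∈ S <;> simp [h1]
        · apply sum_congr rfl
          intro S _
          by_cases h1 : s(r, b) ∈ S <;> simp [h1]
    · have hd : ∀ u ∈ s(r, v), u ∉ f := hcase.resolve_left hrf
      induction f using Sym2.inductionOn with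
      | _ a b =>
        rw [SimpleGraph.mem_edgeFinset, SimpleGraph.mem_edgeSet] at hf
        have hr := hd r (Sym2.mem_mk_left r v)
        have hv' := hd v (Sym2.mem_mk_right r v)
        rw [Sym2.mem_iff, not_or] at hr hv'
        exact hN V r v a b (xw G r (p / (1 - p))) q (p / (1 - p)) hq hq1.le hw hx hv
          (Ne.symm hr.1) (Ne.symm hr.2) hf.ne hv'.1 hv'.2
  have hc : 0 ≤ (1 - p) ^ G.edgeFinset.card := pow_nonneg (sub_pos.2 hp1).le _
  have h2 := mul_le_mul_of_nonneg_left main (mul_nonneg hc hc)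
  calc _ = (1 - p) ^ G.edgeFinset.card * (1 - p) ^ G.edgeFinset.card *
        ((∑ S ∈ (⊤ : SimpleGraph V).edgeFinset.powerset with (s(r, v) ∈ S ∧ f ∈ S),
      rcWeight r (xw G r (p / (1 - p))) (p / (1 - p)) q S) *
        (∑ S ∈ (⊤ : SimpleGraph V).edgeFinset.powerset,
          rcWeight r (xw G r (p / (1 - p))) (p / (1 - p)) q S)) := by ring
    _ ≤ _ := h2
    _ = _ := by ring

end KN.PkFRZ
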